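import Mathlib

/-!
Weights with uniformly large leverage scores for a family of vectors of bounded density.
-/

set_option autoImplicit false

open Finset Matrix

namespace Pool.Agent.Lib.MP_eb34a4_co

variable {n ι : Type} [Fintype n] [DecidableEq n] [Fintype ι] [DecidableEq ι]

/-- the regularised weighted Gram matrix -/
noncomputable def Mat (a : ι → n → ℝ) (l : ι → ℝ) : Matrix n n ℝ :=
  1 + ∑ s, l s • vecMulVec (a s) (a s)

/-- its bilinear form -/
noncomputable def Bil (a : ι → n → ℝ) (l : ι → ℝ) (x y : n → ℝ) : ℝ :=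
  x ⬝ᵥ y + ∑ s, l s * ((a s ⬝ᵥ x) * (a s ⬝ᵥ y))

omit [DecidableEq ι] in
lemma dot_Mat (a : ι → n → ℝ) (l : ι → ℝ) (x y : n → ℝ) :
    x ⬝ᵥ (Mat a l *ᵥ y) = Bil a l x y := by
  unfold Mat Bil
  rw [add_mulVec, one_mulVec, dotProduct_add, Matrix.sum_mulVec, dotProduct_sum]
  congr 1
  refine Finset.sum_congr rfl (fun s _ => ?_)
  rw [smul_mulVec, vecMulVec_mulVec, dotProduct_smul, dotProduct_smul, dotProduct_comm x (a s)]
  simp

omit [DecidableEq n] [DecidableEq ι] in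
lemma dot_le_Bil (a : ι → n → ℝ) (l : ι → ℝ) (hl : ∀ s, 0 ≤ l s) (x : n → ℝ) :
    x ⬝ᵥ x ≤ Bil a l x x := by
  unfold Bil
  have : 0 ≤ ∑ s, l s * ((a s ⬝ᵥ x) * (a s ⬝ᵥ x)) :=
    Finset.sum_nonneg (fun s _ => mul_nonneg (hl s) (mul_self_nonneg _))
  linarith

omit [DecidableEq n] in
lemma dot_self_nonneg (x : n → ℝ) : 0 ≤ x ⬝ᵥ x :=
  Finset.sum_nonneg (fun _ _ => mul_self_nonneg _)

omit [DecidableEq ι] in
lemma Mat_posDef (a : ι → n → ℝ) (l : ι → ℝ) (hl : ∀ s, 0 ≤ l s) : (Mat a l).PosDef := by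
  refine PosDef.of_dotProduct_mulVec_pos ?_ ?_
  · unfold Mat
    ext i j
    simp [Matrix.sum_apply, vecMulVec_apply, Matrix.one_apply, mul_comm, eq_comm]
  · intro x hx
    rw [star_trivial, dot_Mat]
    have h1 := dot_le_Bil a l hl x
    have h2 : x ⬝ᵥ x ≠ 0 := fun h => hx (dotProduct_self_eq_zero.1 h)
    have h3 := dot_self_nonneg x
    exact lt_of_lt_of_le (lt_of_le_of_ne h3 h2.symm) h1

omit [Fintype n] in
lemma Mat_update (a : ι → n → ℝ) (l l' : ι → ℝ) (s : ι) (h : ∀ t, t ≠ s → l' t = l t) :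
    Mat a l' = Mat a l + (l' s - l s) • vecMulVec (a s) (a s) := by
  unfold Mat
  rw [add_assoc]
  congr 1
  rw [← Finset.add_sum_erase _ _ (Finset.mem_univ s),
    ← Finset.add_sum_erase _ (fun s => l s • vecMulVec (a s) (a s)) (Finset.mem_univ s)]
  rw [Finset.sum_congr rfl (fun t ht => by rw [h t (Finset.ne_of_mem_erase ht)]), sub_smul]
  abel

lemma step (a : ι → n → ℝ) (l : ι → ℝ) (hl : ∀ s, 0 ≤ l s) (s : ι) :
    ∃ v : n → ℝ, (∀ w, Bil a l w v = a s ⬝ᵥ w) ∧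
      ∀ l' : ι → ℝ, (∀ t, t ≠ s → l' t = l t) →
        (Mat a l').det = (Mat a l).det * (1 + (l' s - l s) * (a s ⬝ᵥ v)) := by
  have hdet : IsUnit (Mat a l).det := (Mat_posDef a l hl).det_pos.ne'.isUnit
  have hv : Mat a l *ᵥ ((Mat a l)⁻¹ *ᵥ a s) = a s := by
    rw [mulVec_mulVec, mul_nonsing_inv _ hdet, one_mulVec]
  refine ⟨(Mat a l)⁻¹ *ᵥ a s, fun w => ?_, fun l' h => ?_⟩
  · rw [← dot_Mat, hv, dotProduct_comm]
  · rw [Mat_update a l l' s h]
    have : Mat a l + (l' s - l s) • vecMulVec (a s) (a s) =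
        Mat a l * (1 + vecMulVec ((l' s - l s) • ((Mat a l)⁻¹ *ᵥ a s)) (a s)) := by
      rw [mul_add, mul_one, mul_vecMulVec, mulVec_smul, hv, smul_vecMulVec]
    rw [this, det_mul, vecMulVec_eq Unit, det_one_add_replicateCol_mul_replicateRow,
      dotProduct_smul, smul_eq_mul]

omit [DecidableEq n] [DecidableEq ι] in
lemma Bil_expand (a : ι → n → ℝ) (l : ι → ℝ) (w v : n → ℝ) (t : ℝ) :
    Bil a l (w - t • v) (w - t • v) = Bil a l w w - 2 * t * Bil a l w v + t ^ 2 * Bil a l v v := by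
  unfold Bil
  simp only [dotProduct_sub, sub_dotProduct, dotProduct_smul, smul_dotProduct, smul_eq_mul]
  rw [dotProduct_comm v w, mul_add, mul_add, Finset.mul_sum, Finset.mul_sum]
  have : ∑ s, l s * ((a s ⬝ᵥ w - t * a s ⬝ᵥ v) * (a s ⬝ᵥ w - t * a s ⬝ᵥ v)) =
      ∑ s, l s * ((a s ⬝ᵥ w) * (a s ⬝ᵥ w)) - ∑ s, 2 * t * (l s * ((a s ⬝ᵥ w) * (a s ⬝ᵥ v))) +
        ∑ s, t ^ 2 * (l s * ((a s ⬝ᵥ v) * (a s ⬝ᵥ v))) := by
    rw [← Finset.sum_sub_distrib, ← Finset.sum_add_distrib]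
    exact Finset.sum_congr rfl (fun s _ => by ring)
  rw [this]
  ring

lemma det_mono (a : ι → n → ℝ) (l l' : ι → ℝ) (hl : ∀ s, 0 ≤ l s) (h : ∀ s, l s ≤ l' s) :
    (Mat a l).det ≤ (Mat a l').det := by
  have key : ∀ T : Finset ι, (Mat a l).det ≤ (Mat a (fun s => if s ∈ T then l' s else l s)).det := by
    intro T
    induction T using Finset.induction_on with
    | empty => simp
    | insert s T hs ih =>
      have hl0 : ∀ t, 0 ≤ (fun s => if s ∈ T then l' s else l s) t := by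
        intro t
        have := hl t
        have := h t
        dsimp only
        split_ifs <;> linarith
      obtain ⟨v, hv, hdet⟩ := step a _ hl0 s
      rw [hdet (fun t => if t ∈ insert s T then l' t else l t) (fun t ht => by simp [ht])]
      have hq : 0 ≤ a s ⬝ᵥ v := by
        rw [← hv v]
        exact (dot_self_nonneg v).trans (dot_le_Bil a _ hl0 v)
      have hpos := (Mat_posDef a _ hl0).det_pos
      have h1 : 0 ≤ (l' s - l s) * (a s ⬝ᵥ v) := mul_nonneg (by linarith [h s]) hq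
      simp only [Finset.mem_insert_self, if_true, hs, if_false]
      nlinarith
  simpa using key univ

/-- dual vectors -/
def HasDual (a : ι → n → ℝ) (J : Finset ι) : Prop :=
  ∀ s ∈ J, ∃ w : n → ℝ, a s ⬝ᵥ w = 1 ∧ ∀ t ∈ J, t ≠ s → a t ⬝ᵥ w = 0

lemma det_lower (a : ι → n → ℝ) (J : Finset ι) (hJ : HasDual a J) :
    ∃ C : ℝ, 0 < C ∧ ∀ l : ι → ℝ, (∀ s, 0 ≤ l s) → C * ∏ s ∈ J, l s ≤ (Mat a l).det := by
  have key : ∃ C : ℝ, 0 < C ∧ ∀ l : ι → ℝ, (∀ s, 0 ≤ l s) →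
      C * ∏ s ∈ J, l s ≤ (Mat a (fun s => if s ∈ J then l s else 0)).det := by
    induction J using Finset.induction_on with
    | empty =>
      refine ⟨1, one_pos, fun l _ => ?_⟩
      simp [Mat]
    | insert s J hs ih =>
      obtain ⟨C, hC, hCl⟩ := ih (fun t ht => by
        obtain ⟨w, hw1, hw2⟩ := hJ t (Finset.mem_insert_of_mem ht)
        exact ⟨w, hw1, fun u hu hut => hw2 u (Finset.mem_insert_of_mem hu) hut⟩)
      obtain ⟨w, hw1, hw2⟩ := hJ s (Finset.mem_insert_self _ _)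
      have hw0 : 0 < w ⬝ᵥ w := by
        have h2 : w ⬝ᵥ w ≠ 0 := fun h => by
          rw [dotProduct_self_eq_zero.1 h] at hw1
          simp at hw1
        exact lt_of_le_of_ne (dot_self_nonneg w) h2.symm
      refine ⟨C / (w ⬝ᵥ w), div_pos hC hw0, fun l hl => ?_⟩
      have hl0 : ∀ t, 0 ≤ (fun s => if s ∈ J then l s else 0) t := by
        intro t
        have := hl t
        dsimp only
        split_ifs <;> linarith
      obtain ⟨v, hv, hdet⟩ := step a _ hl0 s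
      rw [hdet (fun t => if t ∈ insert s J then l t else 0) (fun t ht => by simp [ht])]
      simp only [Finset.mem_insert_self, if_true, hs, if_false, sub_zero]
      have hww : Bil a (fun s => if s ∈ J then l s else 0) w w = w ⬝ᵥ w := by
        unfold Bil
        rw [Finset.sum_eq_zero, add_zero]
        intro t _
        by_cases ht : t ∈ J
        · rw [hw2 t (Finset.mem_insert_of_mem ht) (fun h => hs (h ▸ ht))]
          simp
        · simp [ht]
      have h1 := Bil_expand a (fun s => if s ∈ J then l s else 0) w v (w ⬝ᵥ w)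
      rw [hv w, hv v, hww, hw1] at h1
      have h2 := (dot_self_nonneg _).trans (dot_le_Bil a _ hl0 (w - (w ⬝ᵥ w) • v))
      rw [h1] at h2
      have h3 : 1 ≤ (w ⬝ᵥ w) * (a s ⬝ᵥ v) := by
        by_contra hcon
        push Not at hcon
        nlinarith
      have h4 : 1 / (w ⬝ᵥ w) ≤ a s ⬝ᵥ v := by
        rw [div_le_iff₀ hw0]; linarith
      have h5 := hCl l hl
      have h6 : 0 ≤ ∏ s ∈ J, l s := Finset.prod_nonneg (fun t _ => hl t)
      rw [Finset.prod_insert hs]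
      have h7 : l s * (1 / (w ⬝ᵥ w)) ≤ 1 + l s * (a s ⬝ᵥ v) := by
        have := mul_le_mul_of_nonneg_left h4 (hl s)
        linarith
      calc C / (w ⬝ᵥ w) * (l s * ∏ s ∈ J, l s)
          = (C * ∏ s ∈ J, l s) * (l s * (1 / (w ⬝ᵥ w))) := by ring
        _ ≤ _ := mul_le_mul h5 h7 (mul_nonneg (hl s) (by positivity))
            ((mul_nonneg hC.le h6).trans h5)
  obtain ⟨C, hC, hCl⟩ := key
  refine ⟨C, hC, fun l hl => (hCl l hl).trans (det_mono a _ _ ?_ ?_)⟩
  · intro t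
    have := hl t
    split_ifs <;> linarith
  · intro t
    have := hl t
    split_ifs <;> linarith

omit [Fintype n] [DecidableEq n] [DecidableEq ι] in
/-- greedy choice of a heavy independent set -/
lemma heavy_ind (ind : Finset ι → Prop) (D : ℕ) (h0 : ind ∅)
    (hext : ∀ J' X : Finset ι, ind J' → J' ⊆ X → ∃ J, ind J ∧ J' ⊆ J ∧ J ⊆ X ∧ #X ≤ D * #J) :
    ∀ (N : ℕ) (e : ι → ℕ), (∀ s, e s ≤ N) →
      ∃ J, ind J ∧ (∀ s ∈ J, e s ≠ 0) ∧ ∑ s, e s ≤ D * ∑ s ∈ J, e s := by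
  intro N
  induction N with
  | zero =>
    intro e he
    refine ⟨∅, h0, by simp, ?_⟩
    rw [Finset.sum_eq_zero (fun s _ => Nat.le_zero.1 (he s))]
    exact Nat.zero_le _
  | succ N ih =>
    intro e he
    obtain ⟨J', hJ', hne, hsum⟩ := ih (fun s => e s - 1) (fun s => by have := he s; omega)
    obtain ⟨J, hJ, hsub, hJX, hcard⟩ := hext J' (univ.filter (fun s => e s ≠ 0)) hJ' (by
      intro s hs
      have := hne s hs
      simp only [Finset.mem_filter, Finset.mem_univ, true_and]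
      omega)
    have hJne : ∀ s ∈ J, e s ≠ 0 := fun s hs => (Finset.mem_filter.1 (hJX hs)).2
    refine ⟨J, hJ, hJne, ?_⟩
    have h1 : ∑ s, e s = ∑ s, (e s - 1) + #(univ.filter (fun s => e s ≠ 0)) := by
      rw [Finset.card_filter, ← Finset.sum_add_distrib]
      refine Finset.sum_congr rfl (fun s _ => ?_)
      split_ifs <;> omega
    have h2 : ∑ s ∈ J, e s = ∑ s ∈ J, (e s - 1) + #J := by
      rw [Finset.card_eq_sum_ones, ← Finset.sum_add_distrib]
      refine Finset.sum_congr rfl (fun s hs => ?_)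
      have := hJne s hs
      omega
    have h3 : ∑ s ∈ J', (e s - 1) ≤ ∑ s ∈ J, (e s - 1) := Finset.sum_le_sum_of_subset hsub
    have h4 := Nat.mul_le_mul_left D h3
    rw [h1, h2, mul_add]
    omega

/-- weights at least one with all leverage scores at least `1 / (2 D)` -/
theorem exists_weights (a : ι → n → ℝ) (ind : Finset ι → Prop) (D : ℕ) (hD : 1 ≤ D) (h0 : ind ∅)
    (hext : ∀ J' X : Finset ι, ind J' → J' ⊆ X → ∃ J, ind J ∧ J' ⊆ J ∧ J ⊆ X ∧ #X ≤ D * #J)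
    (hdual : ∀ J, ind J → HasDual a J) :
    ∃ l : ι → ℝ, (∀ s, 1 ≤ l s) ∧ ∀ s, ∃ v : n → ℝ, a s ⬝ᵥ v = 1 ∧
      ∑ t, l t * (a t ⬝ᵥ v) ^ 2 ≤ 2 * D * l s := by
  have h1 : ∀ J : Finset ι, ∃ C : ℝ, 0 < C ∧ (ind J → ∀ l : ι → ℝ, (∀ s, 0 ≤ l s) →
      C * ∏ s ∈ J, l s ≤ (Mat a l).det) := by
    intro J
    by_cases hJ : ind J
    · obtain ⟨C, hC, h⟩ := det_lower a J (hdual J hJ)
      exact ⟨C, hC, fun _ => h⟩
    · exact ⟨1, one_pos, fun h => absurd h hJ⟩
  choose c hc0 hc using h1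
  obtain ⟨J0, hJ0⟩ := Finite.exists_min c
  let g : (ι → ℕ) → ℝ := fun e => (Mat a (fun s => 2 ^ e s)).det ^ D / 2 ^ (∑ s, e s)
  have hlow : ∀ e, c J0 ^ D ≤ g e := by
    intro e
    obtain ⟨J, hJ, -, hsum⟩ := heavy_ind ind D h0 hext (∑ s, e s) e
      (fun s => Finset.single_le_sum (f := e) (fun _ _ => Nat.zero_le _) (Finset.mem_univ s))
    have h2 := hc J hJ (fun s => 2 ^ e s) (fun s => by positivity)
    rw [Finset.prod_pow_eq_pow_sum] at h2
    have h3 : c J0 * 2 ^ (∑ s ∈ J, e s) ≤ (Mat a (fun s => 2 ^ e s)).det :=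
      (mul_le_mul_of_nonneg_right (hJ0 J) (by positivity)).trans h2
    have h4 := pow_le_pow_left₀ (by have := hc0 J0; positivity) h3 D
    rw [mul_pow, ← pow_mul] at h4
    have h5 : (2 : ℝ) ^ (∑ s, e s) ≤ 2 ^ ((∑ s ∈ J, e s) * D) :=
      pow_le_pow_right₀ (by norm_num) (by rw [mul_comm]; exact hsum)
    change _ ≤ _ / _
    rw [le_div_iff₀ (by positivity)]
    exact (mul_le_mul_of_nonneg_left h5 (by have := hc0 J0; positivity)).trans h4
  have hbdd : BddBelow (Set.range g) := ⟨c J0 ^ D, by rintro _ ⟨e, rfl⟩; exact hlow e⟩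
  have hm : 0 < ⨅ e, g e := lt_of_lt_of_le (pow_pos (hc0 J0) D) (le_ciInf hlow)
  obtain ⟨e, he⟩ : ∃ e, g e < 11 / 10 * ⨅ e, g e := exists_lt_of_ciInf_lt (by linarith)
  refine ⟨fun s => 2 ^ e s, fun s => one_le_pow₀ (by norm_num), fun s => ?_⟩
  have hl0 : ∀ t, (0 : ℝ) ≤ (fun s => (2 : ℝ) ^ e s) t := fun t => by positivity
  obtain ⟨v, hv, hdet⟩ := step a _ hl0 s
  set q := a s ⬝ᵥ v with hq
  have hq0 : 0 ≤ q := by
    rw [hq, ← hv v]
    exact (dot_self_nonneg v).trans (dot_le_Bil a _ hl0 v)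
  have h6 := ciInf_le hbdd (Function.update e s (e s + 1))
  have h7 : g (Function.update e s (e s + 1)) = g e * (1 + 2 ^ e s * q) ^ D / 2 := by
    have h8 := hdet (fun t => 2 ^ (Function.update e s (e s + 1) t))
      (fun t ht => by simp [Function.update_of_ne ht])
    have h9 : ∑ t, Function.update e s (e s + 1) t = ∑ t, e t + 1 := by
      rw [Finset.sum_update_of_mem (Finset.mem_univ s),
        ← Finset.add_sum_erase _ _ (Finset.mem_univ s), Finset.sdiff_singleton_eq_erase]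
      ring
    simp only [g]
    rw [h8, h9, Function.update_self, mul_pow, pow_succ, pow_succ]
    have : (2 : ℝ) ^ e s * 2 - 2 ^ e s = 2 ^ e s := by ring
    rw [this]
    field_simp
  have hge : 0 < g e := lt_of_lt_of_le (pow_pos (hc0 J0) D) (hlow e)
  have hD' : (0 : ℝ) < D := by exact_mod_cast hD
  have h10 : 1 ≤ 2 * D * (2 ^ e s * q) := by
    by_contra hcon
    push Not at hcon
    have h11 : (1 + 2 ^ e s * q) ^ D ≤ Real.exp (2 ^ e s * q) ^ D :=
      pow_le_pow_left₀ (by positivity) (by linarith [Real.add_one_le_exp (2 ^ e s * q)]) D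
    rw [← Real.exp_nat_mul] at h11
    have h12 : Real.exp (D * (2 ^ e s * q)) ≤ Real.exp (1 / 2) :=
      Real.exp_le_exp.2 (by linarith)
    have h13 : Real.exp (1 / 2) < 17 / 10 := by
      have h14 : Real.exp (1 / 2) * Real.exp (1 / 2) = Real.exp 1 := by
        rw [← Real.exp_add]; norm_num
      have := Real.exp_one_lt_d9
      have := Real.exp_pos (1 / 2)
      nlinarith
    have h15 : (1 + 2 ^ e s * q) ^ D < 17 / 10 := by linarith
    rw [h7] at h6
    nlinarith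
  have hq1 : 0 < q := by
    rcases hq0.lt_or_eq with h | h
    · exact h
    · rw [← h] at h10; norm_num at h10
  refine ⟨q⁻¹ • v, by rw [dotProduct_smul, smul_eq_mul, ← hq, inv_mul_cancel₀ hq1.ne'], ?_⟩
  have h16 : ∑ t, (2 : ℝ) ^ e t * (a t ⬝ᵥ (q⁻¹ • v)) ^ 2 =
      q⁻¹ ^ 2 * ∑ t, (2 : ℝ) ^ e t * ((a t ⬝ᵥ v) * (a t ⬝ᵥ v)) := by
    rw [Finset.mul_sum]
    refine Finset.sum_congr rfl (fun t _ => ?_)
    rw [dotProduct_smul, smul_eq_mul]
    ring
  have h17 : ∑ t, (2 : ℝ) ^ e t * ((a t ⬝ᵥ v) * (a t ⬝ᵥ v)) ≤ q := by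
    have := hv v
    unfold Bil at this
    have := dot_self_nonneg v
    linarith
  rw [h16]
  calc q⁻¹ ^ 2 * ∑ t, (2 : ℝ) ^ e t * ((a t ⬝ᵥ v) * (a t ⬝ᵥ v)) ≤ q⁻¹ ^ 2 * q :=
        mul_le_mul_of_nonneg_left h17 (by positivity)
    _ = q⁻¹ * 1 := by field_simp
    _ ≤ q⁻¹ * (2 * D * (2 ^ e s * q)) := mul_le_mul_of_nonneg_left h10 (by positivity)
    _ = 2 * D * 2 ^ e s := by field_simp

end Pool.Agent.Lib.MP_eb34a4_co
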