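import Mathlib
import Pool.Agent.Lib.MP_eb34a4_co.Weights

/-!
A point whose inner products with all vectors of a family of bounded density stay away from the
integers.
-/

set_option autoImplicit false

open Finset Matrix

namespace Pool.Agent.Lib.MP_eb34a4_co

/-- the periodic parabola -/
noncomputable def par (y : ℝ) : ℝ := (y - ⌊y⌋) * (⌊y⌋ + 1 - y)

lemma le_par (y : ℝ) (m : ℤ) : (y - m) * (m + 1 - y) ≤ par y := by
  unfold par
  have h1 := Int.floor_le y
  have h2 := Int.lt_floor_add_one y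
  rcases lt_trichotomy m ⌊y⌋ with h | h | h
  · have h3 : (m : ℝ) + 1 ≤ ⌊y⌋ := by exact_mod_cast h
    nlinarith
  · rw [h]
  · have h3 : (⌊y⌋ : ℝ) + 1 ≤ m := by exact_mod_cast h
    nlinarith

lemma par_le_one (y : ℝ) : par y ≤ 1 := by
  unfold par
  nlinarith [sq_nonneg (y - ⌊y⌋ - 1 / 2)]

lemma par_second (y h : ℝ) : -2 * h ^ 2 ≤ par (y + h) + par (y - h) - 2 * par y := by
  have h1 := le_par (y + h) ⌊y⌋
  have h2 := le_par (y - h) ⌊y⌋
  have h3 : par y = (y - ⌊y⌋) * (⌊y⌋ + 1 - y) := rfl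
  nlinarith

lemma par_second' (y h : ℝ) (m : ℤ) (hm : |y - m| < 1) :
    2 * h - 2 * |y - m| - 2 * h ^ 2 ≤ par (y + h) + par (y - h) - 2 * par y := by
  have h1 := le_par (y + h) m
  have h2 := le_par (y - h) (m - 1)
  push_cast at h2
  have h3 : par y = |y - m| - (y - m) ^ 2 := by
    rw [abs_lt] at hm
    unfold par
    rcases le_or_gt 0 (y - m) with h | h
    · have : ⌊y⌋ = m := Int.floor_eq_iff.2 ⟨by linarith, by linarith⟩
      rw [this, abs_of_nonneg h]
      ring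
    · have : ⌊y⌋ = m - 1 := Int.floor_eq_iff.2 ⟨by push_cast; linarith, by push_cast; linarith⟩
      rw [this, abs_of_neg h]
      push_cast
      ring
  nlinarith

variable {n ι : Type} [Fintype n] [DecidableEq n] [Fintype ι] [DecidableEq ι]

omit [DecidableEq n] in
theorem avoid_of_weights (a : ι → n → ℝ) (D : ℕ) (hD : 1 ≤ D) (l : ι → ℝ) (hl : ∀ s, 1 ≤ l s)
    (hv : ∀ s, ∃ v : n → ℝ, a s ⬝ᵥ v = 1 ∧ ∑ t, l t * (a t ⬝ᵥ v) ^ 2 ≤ 2 * D * l s) :
    ∃ x : n → ℝ, ∀ s, ∀ m : ℤ, 1 / (16 * D : ℝ) ≤ |a s ⬝ᵥ x - m| := by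
  let Φ : (n → ℝ) → ℝ := fun x => ∑ t, l t * par (a t ⬝ᵥ x)
  have hD' : (1 : ℝ) ≤ D := by exact_mod_cast hD
  have hbdd : BddAbove (Set.range Φ) := ⟨∑ t, l t, by
    rintro _ ⟨x, rfl⟩
    refine Finset.sum_le_sum (fun t _ => ?_)
    have := par_le_one (a t ⬝ᵥ x)
    have := hl t
    nlinarith⟩
  have hκ : (0 : ℝ) < 1 / (16 * D) := by positivity
  obtain ⟨x, hx⟩ : ∃ x, (⨆ x, Φ x) - 1 / (16 * D) < Φ x :=
    exists_lt_of_lt_ciSup (by linarith)
  refine ⟨x, fun s m => ?_⟩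
  by_contra hcon
  push Not at hcon
  have hlt1 : |a s ⬝ᵥ x - m| < 1 := by
    have : 1 / (16 * D : ℝ) ≤ 1 := by
      rw [div_le_one (by positivity)]; linarith
    linarith
  obtain ⟨v, hv1, hv2⟩ := hv s
  set h : ℝ := 1 / (4 * D) with hh
  have h1 := le_ciSup hbdd (x + h • v)
  have h2 := le_ciSup hbdd (x - h • v)
  have h3 : Φ (x + h • v) + Φ (x - h • v) - 2 * Φ x =
      ∑ t, l t * (par (a t ⬝ᵥ x + h * (a t ⬝ᵥ v)) + par (a t ⬝ᵥ x - h * (a t ⬝ᵥ v)) -
        2 * par (a t ⬝ᵥ x)) := by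
    simp only [Φ, dotProduct_add, dotProduct_sub, dotProduct_smul, smul_eq_mul]
    rw [Finset.mul_sum, ← Finset.sum_add_distrib, ← Finset.sum_sub_distrib]
    exact Finset.sum_congr rfl (fun t _ => by ring)
  have h4 : ∑ t, ((if t = s then l s * (2 * h - 2 * |a s ⬝ᵥ x - m|) else 0) -
      2 * h ^ 2 * (l t * (a t ⬝ᵥ v) ^ 2)) ≤
      ∑ t, l t * (par (a t ⬝ᵥ x + h * (a t ⬝ᵥ v)) + par (a t ⬝ᵥ x - h * (a t ⬝ᵥ v)) -
        2 * par (a t ⬝ᵥ x)) := by
    refine Finset.sum_le_sum (fun t _ => ?_)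
    have hl0 : 0 ≤ l t := by linarith [hl t]
    by_cases hts : t = s
    · subst hts
      have := mul_le_mul_of_nonneg_left (par_second' (a t ⬝ᵥ x) h m hlt1) hl0
      simp only [if_true, hv1, mul_one]
      nlinarith
    · have := mul_le_mul_of_nonneg_left (par_second (a t ⬝ᵥ x) (h * (a t ⬝ᵥ v))) hl0
      simp only [hts, if_false]
      nlinarith
  rw [Finset.sum_sub_distrib, Finset.sum_ite_eq' univ s, ← Finset.mul_sum] at h4
  simp only [Finset.mem_univ, if_true] at h4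
  have h5 : 2 * h ^ 2 * ∑ t, l t * (a t ⬝ᵥ v) ^ 2 ≤ 2 * h ^ 2 * (2 * D * l s) :=
    mul_le_mul_of_nonneg_left hv2 (by positivity)
  have h6 : 2 * h ^ 2 * (2 * D * l s) = l s * h := by
    rw [hh]; field_simp; ring
  have h7 : h = 4 * (1 / (16 * D)) := by
    rw [hh]; field_simp; ring
  have h8 : 2 * (1 / (16 * D : ℝ)) ≤ l s * (h - 2 * |a s ⬝ᵥ x - m|) := by
    have h9 : 2 * (1 / (16 * D : ℝ)) ≤ h - 2 * |a s ⬝ᵥ x - m| := by linarith
    have := hl s
    nlinarith
  nlinarith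

theorem avoid (a : ι → n → ℝ) (ind : Finset ι → Prop) (D : ℕ) (hD : 1 ≤ D) (h0 : ind ∅)
    (hext : ∀ J' X : Finset ι, ind J' → J' ⊆ X → ∃ J, ind J ∧ J' ⊆ J ∧ J ⊆ X ∧ #X ≤ D * #J)
    (hdual : ∀ J, ind J → HasDual a J) :
    ∃ x : n → ℝ, ∀ s, ∀ m : ℤ, 1 / (16 * D : ℝ) ≤ |a s ⬝ᵥ x - m| := by
  obtain ⟨l, hl, hv⟩ := exists_weights a ind D hD h0 hext hdual
  exact avoid_of_weights a D hD l hl hv

/-- The same for vectors of a rational vector space: an additive functional avoiding integers. -/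
theorem avoid_rat {E : Type} [AddCommGroup E] [Module ℚ E] (S : Finset E) (D : ℕ) (hD : 1 ≤ D)
    (hS : ∀ X J : Finset E, X ⊆ S → (X : Set E) ⊆ Submodule.span ℚ (J : Set E) → #X ≤ D * #J) :
    ∃ φ : E →+ ℝ, ∀ s ∈ S, ∀ m : ℤ, 1 / (16 * D : ℝ) ≤ |φ s - m| := by
  classical
  let b := Module.Basis.ofVectorSpace ℚ E
  let T := S.biUnion (fun s => (b.repr s).support)
  let a : S → T → ℝ := fun s j => (b.repr s j : ℝ)
  obtain ⟨x, hx⟩ := avoid a (fun J => LinearIndepOn ℚ (fun s : S => (s : E)) (J : Set S)) D hD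
    (by simp) (by
      intro J' X hJ' hsub
      obtain ⟨B, hBX, hJB, hspan, hB⟩ := exists_linearIndepOn_extension hJ'
        (Finset.coe_subset.2 hsub)
      have hfin : B.Finite := X.finite_toSet.subset hBX
      obtain ⟨J, rfl⟩ := hfin.exists_finset_coe
      refine ⟨J, hB, Finset.coe_subset.1 hJB, Finset.coe_subset.1 hBX, ?_⟩
      · have := hS (X.map (Function.Embedding.subtype _))
          (J.map (Function.Embedding.subtype _)) (by
            intro s hs
            obtain ⟨t, _, rfl⟩ := Finset.mem_map.1 hs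
            exact t.2) (by simpa using hspan)
        simpa using this) (by
      intro J hJ s hs
      have hnot : (s : E) ∉ Submodule.span ℚ ((fun s : S => (s : E)) '' ((J : Set S) \ {s})) :=
        hJ.notMem_span hs
      obtain ⟨f, hf, hf0⟩ := Submodule.exists_dual_map_eq_bot_of_notMem hnot inferInstance
      have hdot : ∀ t : S, a t ⬝ᵥ (fun j : T => ((f (b j) / f s : ℚ) : ℝ)) =
          ((f t / f s : ℚ) : ℝ) := by
        intro t
        have h1 : f t = ∑ j ∈ T, b.repr t j * f (b j) := by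
          conv_lhs => rw [← b.linearCombination_repr t]
          rw [Finsupp.linearCombination_apply, Finsupp.sum_of_support_subset _
            (Finset.subset_biUnion_of_mem (fun s : E => (b.repr s).support) t.2) _ (by simp),
            map_sum]
          simp [T]
        rw [h1, Finset.sum_div]
        push_cast
        rw [← Finset.sum_coe_sort T]
        simp only [dotProduct, a]
        exact Finset.sum_congr rfl (fun j _ => by ring)
      refine ⟨fun j : T => ((f (b j) / f s : ℚ) : ℝ), ?_, ?_⟩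
      · rw [hdot, div_self hf]; simp
      · intro t ht hts
        have h2 : f t ∈ Submodule.map f
            (Submodule.span ℚ ((fun s : S => (s : E)) '' ((J : Set S) \ {s}))) :=
          Submodule.mem_map_of_mem (Submodule.subset_span ⟨t, ⟨ht, hts⟩, rfl⟩)
        rw [hf0, Submodule.mem_bot] at h2
        rw [hdot, h2]; simp)
  refine ⟨AddMonoidHom.mk' (fun y => ∑ j : T, (b.repr y j : ℝ) * x j) ?_, fun s hs m => ?_⟩
  · intro y z
    rw [← Finset.sum_add_distrib]
    refine Finset.sum_congr rfl (fun j _ => ?_)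
    rw [map_add, Finsupp.add_apply]
    push_cast
    ring
  · exact hx ⟨s, hs⟩ m

end Pool.Agent.Lib.MP_eb34a4_co
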