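import Mathlib

/-!
Approximating a symmetric convex body by polytopes with small facets.
-/

set_option autoImplicit false

open Finset TopologicalSpace Metric
open scoped RealInnerProductSpace

namespace Pool.Agent.Lib.MP_eb34a4_co

variable {E : Type} [NormedAddCommGroup E] [InnerProductSpace ℝ E]

lemma exists_proj (K : Set E) (hne : K.Nonempty) (hK : IsCompact K) (hc : Convex ℝ K) (z : E) :
    ∃ p ∈ K, ∀ k ∈ K, ⟪z - p, k - p⟫ ≤ 0 := by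
  obtain ⟨p, hp, h⟩ := exists_norm_eq_iInf_of_complete_convex hne hK.isComplete hc z
  exact ⟨p, hp, (norm_eq_iInf_iff_real_inner_le_zero hc hp).1 h⟩

/-- cancellation law for convex sets -/
lemma ball_subset_of_near (K C : Set E) (hne : K.Nonempty) (hK : IsCompact K) (hc : Convex ℝ K)
    (δ : ℝ) (hδ : 0 < δ) (hC : ∀ y ∈ C, ∃ k ∈ K, dist y k < δ) (u : E)
    (hu : ball u (2 * δ) ⊆ C) : ball u δ ⊆ K := by
  intro y hy
  by_contra hyK
  obtain ⟨p, hp, h⟩ := exists_proj K hne hK hc y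
  have hw : 0 < ‖y - p‖ := norm_pos_iff.2 (sub_ne_zero.2 (fun h => hyK (h ▸ hp)))
  have hy' : y + (δ / ‖y - p‖) • (y - p) ∈ ball u (2 * δ) := by
    rw [mem_ball] at hy ⊢
    have h1 : dist (y + (δ / ‖y - p‖) • (y - p)) y = δ := by
      rw [dist_eq_norm, add_sub_cancel_left, norm_smul, Real.norm_eq_abs,
        abs_of_pos (div_pos hδ hw), div_mul_cancel₀ _ hw.ne']
    linarith [dist_triangle (y + (δ / ‖y - p‖) • (y - p)) y u]
  obtain ⟨k, hk, hd⟩ := hC _ (hu hy')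
  rw [dist_eq_norm] at hd
  have h2 := real_inner_le_norm (y - p) (y + (δ / ‖y - p‖) • (y - p) - k)
  have h3 : y + (δ / ‖y - p‖) • (y - p) - k = (y - p) + (δ / ‖y - p‖) • (y - p) - (k - p) := by
    abel
  have h4 : ⟪y - p, y + (δ / ‖y - p‖) • (y - p) - k⟫ =
      ‖y - p‖ ^ 2 + δ * ‖y - p‖ - ⟪y - p, k - p⟫ := by
    rw [h3, inner_sub_right, inner_add_right, inner_smul_right, real_inner_self_eq_norm_sq]
    field_simp
  have h5 := h k hk
  nlinarith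

theorem exists_net [FiniteDimensional ℝ E] (K : Set E) (hne : K.Nonempty) (hK : IsCompact K)
    (hc : Convex ℝ K) (hsym : ∀ x ∈ K, -x ∈ K) (r η : ℝ) (hr : 0 < r) (hr1 : r ≤ 1) (hη : 0 < η) :
    ∃ (Z : Finset E) (cv : E → E) (lo hi : E → ℝ), (∀ z, lo z < hi z) ∧
      (∀ k ∈ K, ∀ z ∈ Z, |⟪cv z, k⟫| ≤ lo z) ∧
      ∀ x, (∀ z ∈ Z, |⟪cv z, x⟫| ≤ hi z) →
        (∃ k ∈ K, ‖x - k‖ < r) ∧ ∀ z ∈ Z, lo z ≤ ⟪cv z, x⟫ → ‖x - z‖ < η / 2 := by
  choose P hP hPk using exists_proj K hne hK hc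
  obtain ⟨R, hR0, hR⟩ := hK.isBounded.exists_pos_norm_le
  set c : ℝ := r ^ 2 with hcdef
  have hc0 : 0 < c := by positivity
  set ε : ℝ := c / (2 * R ^ 2) with hε
  have hε0 : 0 < ε := by positivity
  have hεR : ε * R ^ 2 = c / 2 := by rw [hε]; field_simp
  set γ : ℝ := min (c / 4) (ε * η ^ 2 / 8) with hγ
  have hγ0 : 0 < γ := lt_min (by positivity) (by positivity)
  have hγ1 : γ ≤ c / 4 := min_le_left _ _
  have hγ2 : γ ≤ ε * η ^ 2 / 8 := min_le_right _ _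
  let cv : E → E := fun z => (2 : ℝ) • (z - P z) + (2 * ε) • z
  let e : E → ℝ := fun z => 2 * ⟪z - P z, P z⟫ + ‖z - P z‖ ^ 2 + ε * ‖z‖ ^ 2
  have hcv : ∀ z x, ⟪cv z, x⟫ = 2 * ⟪z - P z, x⟫ + 2 * ε * ⟪z, x⟫ := by
    intro z x
    simp only [cv, inner_add_left, real_inner_smul_left]
  have hkey : ∀ z x, ∀ k ∈ K,
      ⟪cv z, x⟫ - e z ≤ ‖x - k‖ ^ 2 + ε * ‖x‖ ^ 2 - ε * ‖x - z‖ ^ 2 := by
    intro z x k hk
    have h1 := hPk z k hk
    rw [inner_sub_right] at h1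
    have h2 := norm_sub_sq_real (z - P z) (x - k)
    rw [inner_sub_right] at h2
    have h3 := norm_sub_sq_real x z
    rw [real_inner_comm] at h3
    have h4 := sq_nonneg ‖z - P z - (x - k)‖
    rw [hcv, h3]
    simp only [e]
    nlinarith
  let U : E → Set E := fun z => {x | ‖x - P z‖ ^ 2 + ε * ‖x‖ ^ 2 < ⟪cv z, x⟫ - e z + γ}
  have hUo : ∀ z, IsOpen (U z) := fun z => isOpen_lt (by fun_prop) (by fun_prop)
  have hUz : ∀ z, z ∈ U z := by
    intro z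
    change ‖z - P z‖ ^ 2 + ε * ‖z‖ ^ 2 < ⟪cv z, z⟫ - e z + γ
    have h1 : ⟪z - P z, z - P z⟫ = ‖z - P z‖ ^ 2 := real_inner_self_eq_norm_sq _
    rw [inner_sub_right] at h1
    rw [hcv, real_inner_self_eq_norm_sq]
    simp only [e]
    nlinarith
  obtain ⟨Z, hZ⟩ := (isCompact_closedBall (0 : E) (R + 2)).elim_finite_subcover U hUo
    (fun z _ => Set.mem_iUnion.2 ⟨z, hUz z⟩)
  have hin : ∀ x, (∀ z ∈ Z, |⟪cv z, x⟫| ≤ e z + c - γ) → ‖x‖ ≤ R + 2 →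
      ∃ k ∈ K, ‖x - k‖ ^ 2 + ε * ‖x‖ ^ 2 < c := by
    intro x hx hxR
    obtain ⟨z, hz, hxz⟩ := Set.mem_iUnion₂.1 (hZ (mem_closedBall_zero_iff.2 hxR))
    refine ⟨P z, hP z, ?_⟩
    have h1 := (abs_le.1 (hx z hz)).2
    have h2 : ‖x - P z‖ ^ 2 + ε * ‖x‖ ^ 2 < ⟪cv z, x⟫ - e z + γ := hxz
    linarith
  have hnear : ∀ x k : E, ‖x - k‖ ^ 2 + ε * ‖x‖ ^ 2 < c → ‖x - k‖ < r := by
    intro x k h
    have h1 : 0 ≤ ε * ‖x‖ ^ 2 := by positivity
    exact lt_of_pow_lt_pow_left₀ 2 hr.le (by linarith)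
  have hall : ∀ x, (∀ z ∈ Z, |⟪cv z, x⟫| ≤ e z + c - γ) →
      ∃ k ∈ K, ‖x - k‖ ^ 2 + ε * ‖x‖ ^ 2 < c := by
    intro x hx
    by_cases hxR : ‖x‖ ≤ R + 2
    · exact hin x hx hxR
    · exfalso
      push Not at hxR
      have hx0 : 0 < ‖x‖ := by linarith
      have hs0 : 0 < (R + 2) / ‖x‖ := by positivity
      have hs1 : (R + 2) / ‖x‖ ≤ 1 := by rw [div_le_one hx0]; exact hxR.le
      have hn : ‖((R + 2) / ‖x‖) • x‖ = R + 2 := by
        rw [norm_smul, Real.norm_eq_abs, abs_of_pos hs0, div_mul_cancel₀ _ hx0.ne']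
      obtain ⟨k, hk, h⟩ := hin (((R + 2) / ‖x‖) • x) (by
        intro z hz
        rw [inner_smul_right, abs_mul, abs_of_pos hs0]
        have := hx z hz
        have := abs_nonneg ⟪cv z, x⟫
        nlinarith) hn.le
      have h1 := hnear _ _ h
      have h2 := hR k hk
      have h3 := norm_sub_norm_le (((R + 2) / ‖x‖) • x) k
      linarith
  refine ⟨Z, cv, fun z => e z + c - 2 * γ, fun z => e z + c - γ, fun z => by linarith, ?_, ?_⟩
  · have h1 : ∀ k ∈ K, ∀ z, ⟪cv z, k⟫ ≤ e z + c - 2 * γ := by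
      intro k hk z
      have h2 := hkey z k k hk
      have h3 : ‖k‖ ^ 2 ≤ R ^ 2 := pow_le_pow_left₀ (norm_nonneg _) (hR k hk) 2
      have h4 : ε * ‖k‖ ^ 2 ≤ ε * R ^ 2 := mul_le_mul_of_nonneg_left h3 hε0.le
      have h5 : 0 ≤ ε * ‖k - z‖ ^ 2 := by positivity
      simp only [sub_self, norm_zero] at h2
      linarith
    intro k hk z _
    have h2 := h1 k hk z
    have h3 := h1 (-k) (hsym k hk) z
    rw [inner_neg_right] at h3
    exact abs_le.2 ⟨by linarith, h2⟩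
  · intro x hx
    obtain ⟨k, hk, h⟩ := hall x hx
    refine ⟨⟨k, hk, hnear x k h⟩, fun z _ hz => ?_⟩
    have h1 := hkey z x k hk
    have h2 : ε * ‖x - z‖ ^ 2 < ε * (η / 2) ^ 2 := by nlinarith
    exact lt_of_pow_lt_pow_left₀ 2 (by positivity) (lt_of_mul_lt_mul_left h2 hε0.le)

end Pool.Agent.Lib.MP_eb34a4_co
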