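import Mathlib
import Pool.Agent.Lib.MP_eb34a4_co.Net

/-!
For a typical symmetric convex body, boundary points satisfy few rational linear relations.
-/

set_option autoImplicit false

open Finset TopologicalSpace Metric
open scoped RealInnerProductSpace

namespace Pool.Agent.Lib.MP_eb34a4_co

/-- symmetric convex bodies with the Hausdorff metric -/
abbrev Body (E : Type) [NormedAddCommGroup E] [InnerProductSpace ℝ E] :=
  {K : NonemptyCompacts E // Convex ℝ (K : Set E) ∧ (∀ x ∈ (K : Set E), -x ∈ (K : Set E)) ∧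
    (0 : E) ∈ interior (K : Set E)}

variable {E : Type} [NormedAddCommGroup E] [InnerProductSpace ℝ E] [FiniteDimensional ℝ E]

/-- a sign -/
def sg (b : Bool) : ℝ := if b then 1 else -1

/-- an open box contains a ball missing finitely many proper subspaces -/
lemma exists_ball_avoid {Z κ : Type} [Fintype Z] [Finite κ] (V : κ → Submodule ℝ (Z → ℝ))
    (hV : ∀ k, V k ≠ ⊤) (lo hi : Z → ℝ) (h : ∀ z, lo z < hi z) :
    ∃ (t : Z → ℝ) (ρ : ℝ), 0 < ρ ∧ ∀ t', dist t' t < ρ →
      (∀ z, lo z < t' z ∧ t' z < hi z) ∧ ∀ k, t' ∉ V k := by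
  have hopen : ∀ k, IsOpen ((V k : Set (Z → ℝ))ᶜ) := fun k =>
    (V k).closed_of_finiteDimensional.isOpen_compl
  have hdense : ∀ k, Dense ((V k : Set (Z → ℝ))ᶜ) := by
    intro k
    rw [← interior_eq_empty_iff_dense_compl]
    by_contra hne
    exact hV k ((V k).eq_top_of_nonempty_interior' (Set.nonempty_iff_ne_empty.2 hne))
  have hO : IsOpen (Set.univ.pi (fun z => Set.Ioo (lo z) (hi z))) :=
    isOpen_set_pi Set.finite_univ (fun _ _ => isOpen_Ioo)
  have hOne : (Set.univ.pi (fun z => Set.Ioo (lo z) (hi z))).Nonempty :=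
    Set.univ_pi_nonempty_iff.2 (fun z => Set.nonempty_Ioo.2 (h z))
  obtain ⟨t, ht⟩ := (dense_iInter_of_isOpen hopen hdense).inter_open_nonempty _ hO hOne
  obtain ⟨ρ, hρ, hball⟩ := Metric.isOpen_iff.1 (hO.inter (isOpen_iInter_of_finite hopen)) t ht
  refine ⟨t, ρ, hρ, fun t' ht' => ?_⟩
  obtain ⟨h1, h2⟩ := hball (mem_ball.2 ht')
  exact ⟨fun z => h1 z (Set.mem_univ z), fun k => Set.mem_iInter.1 h2 k⟩

theorem exists_good_ball {W ι : Type} [AddCommGroup W] [Module ℝ W] [FiniteDimensional ℝ W]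
    [Fintype ι] (u : ι → W →ₗ[ℝ] E) (hdim : Module.finrank ℝ W < Fintype.card ι)
    (η : ℝ) (hη : 0 < η) (K₀ : Body E) (r : ℝ) (hr : 0 < r) :
    ∃ (K₁ : Body E) (δ : ℝ), 0 < δ ∧ dist K₁ K₀ < r ∧ ∀ K : Body E, dist K K₁ < δ →
      ¬ ∃ w : W, (∀ i, u i w ∈ frontier (K.1 : Set E)) ∧
        ∀ i j, i ≠ j → η ≤ ‖u i w - u j w‖ ∧ η ≤ ‖u i w + u j w‖ := by
  classical
  obtain ⟨Z, cv, lo, hi, hlohi, hin, hout⟩ := exists_net (K₀.1 : Set E) K₀.1.nonempty
    K₀.1.isCompact K₀.2.1 K₀.2.2.1 (min 1 (r / 2)) η (lt_min one_pos (by linarith))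
    (min_le_left _ _) hη
  let Λ : (ι → Z) × (ι → Bool) → (W →ₗ[ℝ] (ι → ℝ)) := fun p =>
    LinearMap.pi (fun i => sg (p.2 i) • ((innerₗ E (cv (p.1 i))) ∘ₗ u i))
  let V : {p : (ι → Z) × (ι → Bool) // Function.Injective p.1} → Submodule ℝ (Z → ℝ) := fun p =>
    (LinearMap.range (Λ p.1)).comap (LinearMap.funLeft ℝ ℝ p.1.1)
  have hV : ∀ p, V p ≠ ⊤ := by
    intro p hp
    have h1 : LinearMap.range (Λ p.1) = ⊤ := by
      rw [eq_top_iff]
      intro y _
      obtain ⟨t, rfl⟩ := LinearMap.funLeft_surjective_of_injective ℝ ℝ p.1.1 p.2 y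
      have : t ∈ V p := hp ▸ Submodule.mem_top
      exact this
    have h2 := LinearMap.finrank_range_le (Λ p.1)
    rw [h1, finrank_top, Module.finrank_fintype_fun_eq_card] at h2
    omega
  obtain ⟨t, ρ, hρ, hball⟩ := exists_ball_avoid V hV (fun z => lo z) (fun z => hi z)
    (fun z => hlohi z)
  have ht := (hball t (by simpa using hρ)).1
  have hbox : ∀ (z : Z) (s : ℝ), |s - t z| < ρ → lo z < s ∧ s < hi z := by
    intro z s hs
    have := (hball (Function.update t z s) ((dist_pi_lt_iff hρ).2 (fun y => by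
      by_cases hy : y = z
      · subst hy
        simpa [Real.dist_eq] using hs
      · simpa [Function.update_of_ne hy] using hρ))).1 z
    simpa using this
  let C : Set E := {x | ∀ z : Z, |⟪cv z, x⟫| ≤ t z}
  have hK₀C : (K₀.1 : Set E) ⊆ C := fun k hk z => (hin k hk z z.2).trans (ht z).1.le
  have hCnear : ∀ x ∈ C, ∃ k ∈ (K₀.1 : Set E), ‖x - k‖ < min 1 (r / 2) := fun x hx =>
    (hout x (fun z hz => (hx ⟨z, hz⟩).trans (ht ⟨z, hz⟩).2.le)).1
  have hCclosed : IsClosed C := by
    have : C = ⋂ z : Z, {x | |⟪cv z, x⟫| ≤ t z} := by ext x; simp [C]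
    rw [this]
    exact isClosed_iInter (fun z => isClosed_le (by fun_prop) continuous_const)
  have hCbdd : Bornology.IsBounded C := by
    obtain ⟨R, hR⟩ := K₀.1.isCompact.isBounded.exists_norm_le
    refine isBounded_iff_forall_norm_le.2 ⟨R + 1, fun x hx => ?_⟩
    obtain ⟨k, hk, h⟩ := hCnear x hx
    have h1 := hR k hk
    have h2 := norm_sub_norm_le x k
    have h3 := min_le_left 1 (r / 2)
    linarith
  have hCcomp : IsCompact C := isCompact_of_isClosed_isBounded hCclosed hCbdd
  have hCne : C.Nonempty := K₀.1.nonempty.mono hK₀C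
  have hCconv : Convex ℝ C := by
    intro x hx y hy a b ha hb hab z
    rw [inner_add_right, inner_smul_right, inner_smul_right]
    have h1 := abs_le.1 (hx z)
    have h2 := abs_le.1 (hy z)
    have h3 : t z = a * t z + b * t z := by rw [← add_mul, hab, one_mul]
    refine abs_le.2 ⟨?_, ?_⟩ <;> nlinarith
  let K₁ : Body E := ⟨⟨⟨C, hCcomp⟩, hCne⟩, hCconv, fun x hx z => by
    rw [inner_neg_right, abs_neg]; exact hx z, interior_mono hK₀C K₀.2.2.2⟩
  set M : ℝ := ∑ z : Z, ‖cv z‖ with hM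
  have hMz : ∀ z : Z, ‖cv z‖ ≤ M := fun z =>
    Finset.single_le_sum (f := fun z : Z => ‖cv z‖) (fun _ _ => norm_nonneg _) (Finset.mem_univ z)
  have hM0 : 0 ≤ M := Finset.sum_nonneg (fun _ _ => norm_nonneg _)
  set δ : ℝ := ρ / (2 * (M + 1)) with hδ
  have hδ0 : 0 < δ := by positivity
  have hδM : 2 * δ * M < ρ := by
    have : 2 * δ * (M + 1) = ρ := by rw [hδ]; field_simp
    linarith
  refine ⟨K₁, δ, hδ0, ?_, ?_⟩
  · rw [Subtype.dist_eq, NonemptyCompacts.dist_eq]
    refine lt_of_le_of_lt (hausdorffDist_le_of_mem_dist (r := r / 2) (by linarith) ?_ ?_)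
      (by linarith)
    · intro x hx
      obtain ⟨k, hk, h⟩ := hCnear x hx
      exact ⟨k, hk, by rw [dist_eq_norm]; exact h.le.trans (min_le_right _ _)⟩
    · intro x hx
      exact ⟨x, hK₀C hx, by rw [dist_self]; linarith⟩
  · rintro K hK ⟨w, hfr, hsep⟩
    rw [Subtype.dist_eq, NonemptyCompacts.dist_eq] at hK
    have hfin : hausdorffEDist (K.1 : Set E) (K₁.1 : Set E) ≠ ⊤ :=
      hausdorffEDist_ne_top_of_nonempty_of_bounded K.1.nonempty hCne K.1.isCompact.isBounded hCbdd
    have hlip : ∀ (z : Z) (x y : E), dist x y < 2 * δ → |⟪cv z, x⟫ - ⟪cv z, y⟫| ≤ 2 * δ * M := by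
      intro z x y hxy
      rw [← inner_sub_right]
      rw [dist_eq_norm] at hxy
      have h1 := abs_real_inner_le_norm (cv z) (x - y)
      have h2 : ‖cv z‖ * ‖x - y‖ ≤ M * (2 * δ) :=
        mul_le_mul (hMz z) hxy.le (norm_nonneg _) hM0
      linarith
    have hpt : ∀ x ∈ frontier (K.1 : Set E), ∃ (z : Z) (b : Bool),
        |sg b * ⟪cv z, x⟫ - t z| < ρ ∧ ‖sg b • x - z‖ < η / 2 := by
      intro x hx
      have hxK : x ∈ (K.1 : Set E) := K.1.isCompact.isClosed.frontier_subset hx
      obtain ⟨y, hy, hxy⟩ := exists_dist_lt_of_hausdorffDist_lt hxK hK hfin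
      have hup : ∀ z : Z, |⟪cv z, x⟫| ≤ t z + 2 * δ * M := by
        intro z
        have h1 := hlip z x y (by linarith)
        have h2 : |⟪cv z, y⟫| ≤ t z := hy z
        have h3 := abs_sub_abs_le_abs_sub ⟪cv z, x⟫ ⟪cv z, y⟫
        linarith
      have hhi : ∀ z ∈ Z, |⟪cv z, x⟫| ≤ hi z := by
        intro z hz
        have h1 := hup ⟨z, hz⟩
        have h2 := (hbox ⟨z, hz⟩ (t ⟨z, hz⟩ + 2 * δ * M) (by
          rw [add_sub_cancel_left, abs_of_nonneg (by positivity)]; exact hδM)).2
        exact h1.trans h2.le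
      have hlow : ∃ z : Z, t z - 2 * δ * M ≤ |⟪cv z, x⟫| := by
        by_contra hcon
        push Not at hcon
        have h1 : ball x (2 * δ) ⊆ C := by
          intro y' hy' z
          have h2 := hlip z y' x (mem_ball.1 hy')
          have h3 := abs_sub_abs_le_abs_sub ⟪cv z, y'⟫ ⟪cv z, x⟫
          have h4 := hcon z
          linarith
        have h2 := ball_subset_of_near (K.1 : Set E) C K.1.nonempty K.1.isCompact K.2.1 δ hδ0
          (fun y' hy' => by
            obtain ⟨k, hk, h⟩ := exists_dist_lt_of_hausdorffDist_lt' (t := (K₁.1 : Set E)) hy' hK hfin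
            exact ⟨k, hk, by rw [dist_comm]; exact h⟩) x h1
        exact hx.2 (mem_interior.2 ⟨ball x δ, h2, isOpen_ball, mem_ball_self hδ0⟩)
      obtain ⟨z, hz⟩ := hlow
      have h5 : |(|⟪cv z, x⟫|) - t z| < ρ := by
        have := hup z
        exact abs_lt.2 ⟨by linarith, by linarith⟩
      have h6 := (hbox z _ h5).1
      rcases le_total 0 ⟪cv z, x⟫ with h | h
      · rw [abs_of_nonneg h] at h5 h6
        refine ⟨z, true, by simpa [sg] using h5, ?_⟩
        simpa [sg] using (hout x hhi).2 z z.2 h6.le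
      · rw [abs_of_nonpos h] at h5 h6
        refine ⟨z, false, by simpa [sg] using h5, ?_⟩
        have := (hout (-x) (fun z hz => by rw [inner_neg_right, abs_neg]; exact hhi z hz)).2 z z.2
          (by rw [inner_neg_right]; exact h6.le)
        simpa [sg] using this
    choose f σ hf1 hf2 using fun i => hpt (u i w) (hfr i)
    have hinj : Function.Injective f := by
      intro i j hij
      by_contra hne
      obtain ⟨h1, h2⟩ := hsep i j hne
      have h3 := hf2 i
      have h4 := hf2 j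
      rw [← hij] at h4
      have h5 : ‖sg (σ i) • u i w - sg (σ j) • u j w‖ < η := by
        have := norm_sub_le (sg (σ i) • u i w - (f i : E)) (sg (σ j) • u j w - (f i : E))
        rw [sub_sub_sub_cancel_right] at this
        linarith
      rcases hi' : σ i <;> rcases hj' : σ j <;> simp only [hi', hj', sg] at h5
      · have : (-1 : ℝ) • u i w - (-1 : ℝ) • u j w = -(u i w - u j w) := by
          simp only [neg_smul, one_smul]; abel
        simp only [Bool.false_eq_true, if_false] at h5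
        rw [this, norm_neg] at h5
        linarith
      · have : (-1 : ℝ) • u i w - (1 : ℝ) • u j w = -(u i w + u j w) := by
          simp only [neg_smul, one_smul]; abel
        simp only [Bool.false_eq_true, if_false, if_true] at h5
        rw [this, norm_neg] at h5
        linarith
      · have : (1 : ℝ) • u i w - (-1 : ℝ) • u j w = u i w + u j w := by
          simp only [neg_smul, one_smul]; abel
        simp only [Bool.false_eq_true, if_false, if_true] at h5
        rw [this] at h5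
        linarith
      · simp only [if_true, one_smul] at h5
        linarith
    let t' : Z → ℝ := Function.extend f (fun i => sg (σ i) * ⟪cv (f i), u i w⟫) t
    have ht'f : ∀ i, t' (f i) = sg (σ i) * ⟪cv (f i), u i w⟫ := fun i => hinj.extend_apply _ _ i
    have hdist : dist t' t < ρ := by
      refine (dist_pi_lt_iff hρ).2 (fun z => ?_)
      by_cases hz : ∃ i, f i = z
      · obtain ⟨i, rfl⟩ := hz
        rw [ht'f, Real.dist_eq]
        exact hf1 i
      · have : t' z = t z := Function.extend_apply' _ _ _ hz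
        rw [this, dist_self]
        exact hρ
    refine (hball t' hdist).2 ⟨(f, σ), hinj⟩ ?_
    refine ⟨w, ?_⟩
    ext i
    simp [Λ, LinearMap.funLeft_apply, ht'f]

theorem nowhereDense_bad {W ι : Type} [AddCommGroup W] [Module ℝ W] [FiniteDimensional ℝ W]
    [Fintype ι] (u : ι → W →ₗ[ℝ] E) (hdim : Module.finrank ℝ W < Fintype.card ι)
    (η : ℝ) (hη : 0 < η) :
    IsNowhereDense {K : Body E | ∃ w : W, (∀ i, u i w ∈ frontier (K.1 : Set E)) ∧
        ∀ i j, i ≠ j → η ≤ ‖u i w - u j w‖ ∧ η ≤ ‖u i w + u j w‖} := by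
  rw [IsNowhereDense, Set.eq_empty_iff_forall_notMem]
  intro K₀ hK₀
  obtain ⟨r, hr, hball⟩ := Metric.isOpen_iff.1 isOpen_interior K₀ hK₀
  obtain ⟨K₁, δ, hδ, h1, h2⟩ := exists_good_ball u hdim η hη K₀ r hr
  obtain ⟨K, hK, hd⟩ := Metric.mem_closure_iff.1 (interior_subset (hball (mem_ball.2 h1))) δ hδ
  exact h2 K (by rw [dist_comm]; exact hd) hK

/-- Outside a meagre set of bodies, finite sets of boundary points with no two opposite have
rational density at most the dimension. -/
theorem meagre_dense_relations [Module ℚ E] :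
    IsMeagre {K : Body E | ¬ ∀ X J : Finset E, (X : Set E) ⊆ frontier (K.1 : Set E) →
      (∀ x ∈ X, ∀ y ∈ X, x ≠ y → x + y ≠ 0) → (X : Set E) ⊆ Submodule.span ℚ (J : Set E) →
      #X ≤ Module.finrank ℝ E * #J} := by
  let u : ∀ N l : ℕ, (Fin N → Fin l → ℚ) → Fin N → ((Fin l → E) →ₗ[ℝ] E) := fun N l A i =>
    ∑ j, (A i j : ℝ) • LinearMap.proj j
  have hm : IsMeagre (⋃ (N : ℕ) (l : ℕ) (A : Fin N → Fin l → ℚ) (m : ℕ)
      (_ : Module.finrank ℝ E * l < N),
      {K : Body E | ∃ w : Fin l → E, (∀ i, u N l A i w ∈ frontier (K.1 : Set E)) ∧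
        ∀ i j, i ≠ j → 1 / ((m : ℝ) + 1) ≤ ‖u N l A i w - u N l A j w‖ ∧
          1 / ((m : ℝ) + 1) ≤ ‖u N l A i w + u N l A j w‖}) := by
    refine isMeagre_iUnion fun N => isMeagre_iUnion fun l => isMeagre_iUnion fun A =>
      isMeagre_iUnion fun m => isMeagre_iUnion fun h => ?_
    refine (nowhereDense_bad (u N l A) ?_ _ (by positivity)).isMeagre
    rw [Module.finrank_pi_fintype, Finset.sum_const, Finset.card_univ, Fintype.card_fin,
      Fintype.card_fin, smul_eq_mul, mul_comm]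
    exact h
  refine hm.mono ?_
  intro K hK
  simp only [Set.mem_ofPred_eq, not_forall, not_le] at hK
  obtain ⟨X, J, hX, hopp, hspan, hlt⟩ := hK
  let x : Fin #X → E := fun i => (X.equivFin.symm i : E)
  let b : Fin #J → E := fun j => (J.equivFin.symm j : E)
  have hxX : ∀ i, x i ∈ X := fun i => (X.equivFin.symm i).2
  have hxinj : Function.Injective x := fun i j h => X.equivFin.symm.injective (Subtype.ext h)
  have hrange : Set.range b = (J : Set E) := by
    ext y
    constructor
    · rintro ⟨j, rfl⟩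
      exact (J.equivFin.symm j).2
    · intro hy
      exact ⟨J.equivFin ⟨y, hy⟩, by simp [b]⟩
  have hA : ∀ i, ∃ c : Fin #J → ℚ, ∑ j, c j • b j = x i := fun i =>
    (Submodule.mem_span_range_iff_exists_fun ℚ).1 (by rw [hrange]; exact hspan (hxX i))
  choose A hA using hA
  have hu : ∀ i, u #X #J A i b = x i := by
    intro i
    rw [← hA i]
    simp [u, Rat.cast_smul_eq_qsmul]
  have hev : ∀ᶠ m : ℕ in Filter.atTop, ∀ i j, i ≠ j →
      1 / ((m : ℝ) + 1) ≤ ‖x i - x j‖ ∧ 1 / ((m : ℝ) + 1) ≤ ‖x i + x j‖ := by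
    refine Filter.eventually_all.2 fun i => Filter.eventually_all.2 fun j => ?_
    by_cases hij : i = j
    · exact Filter.Eventually.of_forall (fun m h => absurd hij h)
    · have h1 : 0 < ‖x i - x j‖ := norm_pos_iff.2 (sub_ne_zero.2 (fun h => hij (hxinj h)))
      have h2 : 0 < ‖x i + x j‖ :=
        norm_pos_iff.2 (hopp _ (hxX i) _ (hxX j) (fun h => hij (hxinj h)))
      filter_upwards [tendsto_one_div_add_atTop_nhds_zero_nat.eventually (ge_mem_nhds h1),
        tendsto_one_div_add_atTop_nhds_zero_nat.eventually (ge_mem_nhds h2)] with m hm1 hm2 _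
      exact ⟨hm1, hm2⟩
  obtain ⟨m, hm⟩ := hev.exists
  simp only [Set.mem_iUnion]
  refine ⟨#X, #J, A, m, hlt, b, fun i => ?_, fun i j hij => ?_⟩
  · rw [hu]; exact hX (hxX i)
  · rw [hu, hu]; exact hm i j hij

end Pool.Agent.Lib.MP_eb34a4_co
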