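import Mathlib
import Pool.Agent.Lib.MP_eb34a4_co.Avoid
import Pool.Agent.Lib.MP_eb34a4_co.Typical

/-!
The unit distance graph of a typical norm has chromatic number at most 16 times the dimension.
-/

set_option autoImplicit false

open Finset TopologicalSpace

namespace Pool.Agent.Lib.MP_eb34a4_co

theorem colorable_of_density {E : Type} [AddCommGroup E] [Module ℚ E] (F : Set E) (D : ℕ)
    (hD : 1 ≤ D)
    (hF : ∀ X J : Finset E, (X : Set E) ⊆ F → (∀ x ∈ X, ∀ y ∈ X, x ≠ y → x + y ≠ 0) →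
      (X : Set E) ⊆ Submodule.span ℚ (J : Set E) → #X ≤ D * #J) :
    (SimpleGraph.fromRel (fun x y : E => x - y ∈ F)).Colorable (16 * D) := by
  classical
  have : NeZero (16 * D) := ⟨by omega⟩
  have hcard : Fintype.card (ZMod (16 * D)) = 16 * D := ZMod.card _
  suffices h : Nonempty ((SimpleGraph.fromRel (fun x y : E => x - y ∈ F)) →g
      (⊤ : SimpleGraph (ZMod (16 * D)))) by
    obtain ⟨c⟩ := h
    have := SimpleGraph.Coloring.colorable
      (G := SimpleGraph.fromRel (fun x y : E => x - y ∈ F)) (α := ZMod (16 * D)) c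
    rwa [hcard] at this
  refine SimpleGraph.nonempty_hom_of_forall_finite_subgraph_hom (fun G' hG' => Classical.choice ?_)
  let S₀ : Finset E :=
    ((hG'.toFinset ×ˢ hG'.toFinset).image (fun p => p.1 - p.2)).filter (fun s => s ∈ F)
  obtain ⟨S, hS, hmax⟩ := Finset.exists_max_image
    (S₀.powerset.filter (fun X => ∀ x ∈ X, ∀ y ∈ X, x ≠ y → x + y ≠ 0)) Finset.card
    ⟨∅, by simp⟩
  obtain ⟨hS1, hS2⟩ := Finset.mem_filter.1 hS
  rw [Finset.mem_powerset] at hS1
  have hrep : ∀ s ∈ S₀, s ∈ S ∨ -s ∈ S := by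
    intro s hs
    by_contra hcon
    push Not at hcon
    have := hmax (insert s S) (Finset.mem_filter.2 ⟨Finset.mem_powerset.2
      (Finset.insert_subset hs hS1), by
        intro x hx y hy hxy h0
        rcases Finset.mem_insert.1 hx with rfl | hx' <;>
          rcases Finset.mem_insert.1 hy with rfl | hy'
        · exact hxy rfl
        · exact hcon.2 ((neg_eq_of_add_eq_zero_right h0) ▸ hy')
        · exact hcon.2 ((neg_eq_of_add_eq_zero_left h0) ▸ hx')
        · exact hS2 x hx' y hy' hxy h0⟩)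
    rw [Finset.card_insert_of_notMem hcon.1] at this
    omega
  obtain ⟨φ, hφ⟩ := avoid_rat S D hD (fun X J hX hspan => hF X J
    (fun x hx => (Finset.mem_filter.1 (hS1 (hX hx))).2)
    (fun x hx y hy => hS2 x (hX hx) y (hX hy)) hspan)
  have hφ0 : ∀ s ∈ S₀, ∀ m : ℤ, 1 / (16 * D : ℝ) ≤ |φ s - m| := by
    intro s hs m
    rcases hrep s hs with h | h
    · exact hφ s h m
    · have := hφ (-s) h (-m)
      rw [map_neg, Int.cast_neg, ← neg_sub', abs_neg] at this
      exact this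
  have hD' : (0 : ℝ) < 16 * D := by
    have : (1 : ℝ) ≤ D := by exact_mod_cast hD
    linarith
  have hcol : ∀ x y : E, x - y ∈ S₀ →
      ((⌊16 * D * φ x⌋ : ℤ) : ZMod (16 * D)) ≠ ((⌊16 * D * φ y⌋ : ℤ) : ZMod (16 * D)) := by
    intro x y hxy h
    obtain ⟨m, hm⟩ := (ZMod.intCast_eq_intCast_iff_dvd_sub _ _ _).1 h.symm
    have h1 := hφ0 _ hxy m
    have h2 : ((⌊16 * D * φ x⌋ : ℤ) : ℝ) - ((⌊16 * D * φ y⌋ : ℤ) : ℝ) = 16 * D * m := by
      exact_mod_cast hm
    have h3 := Int.floor_le (16 * D * φ x)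
    have h4 := Int.lt_floor_add_one (16 * D * φ x)
    have h5 := Int.floor_le (16 * D * φ y)
    have h6 := Int.lt_floor_add_one (16 * D * φ y)
    rw [div_le_iff₀ hD', map_sub] at h1
    have h7 : |φ x - φ y - m| * (16 * D) = |16 * D * φ x - 16 * D * φ y - 16 * D * m| := by
      rw [← abs_of_pos hD', ← abs_mul, abs_of_pos hD']
      congr 1
      ring
    have h8 : |16 * D * φ x - 16 * D * φ y - 16 * D * m| < 1 :=
      abs_lt.2 ⟨by linarith, by linarith⟩
    linarith
  refine ⟨⟨fun v => ((⌊16 * D * φ v.1⌋ : ℤ) : ZMod (16 * D)), ?_⟩⟩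
  rintro ⟨x, hx⟩ ⟨y, hy⟩ hadj
  have hadj' : (SimpleGraph.fromRel (fun x y : E => x - y ∈ F)).Adj x y := G'.adj_sub hadj
  rw [SimpleGraph.fromRel_adj] at hadj'
  rw [SimpleGraph.top_adj]
  have hx' : x ∈ hG'.toFinset := hG'.mem_toFinset.2 hx
  have hy' : y ∈ hG'.toFinset := hG'.mem_toFinset.2 hy
  rcases hadj'.2 with h | h
  · exact hcol x y (Finset.mem_filter.2 ⟨Finset.mem_image.2
      ⟨(x, y), Finset.mem_product.2 ⟨hx', hy'⟩, rfl⟩, h⟩)
  · exact (hcol y x (Finset.mem_filter.2 ⟨Finset.mem_image.2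
      ⟨(y, x), Finset.mem_product.2 ⟨hy', hx'⟩, rfl⟩, h⟩)).symm

theorem meagre_chromatic (d : ℕ) (hd : 1 ≤ d) :
    IsMeagre {K : Body (EuclideanSpace ℝ (Fin d)) |
      ¬ (SimpleGraph.fromRel (fun x y : EuclideanSpace ℝ (Fin d) =>
        x - y ∈ frontier (K.1 : Set (EuclideanSpace ℝ (Fin d))))).chromaticNumber ≤
          ((16 * d : ℕ) : ℕ∞)} := by
  refine (meagre_dense_relations (E := EuclideanSpace ℝ (Fin d))).mono ?_
  intro K hK hgood
  apply hK
  rw [finrank_euclideanSpace_fin] at hgood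
  exact (colorable_of_density _ d hd hgood).chromaticNumber_le

end Pool.Agent.Lib.MP_eb34a4_co
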